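import Pool.Agent.H.MP_443384_al.Basic

namespace Pool.Agent.Results.MP_443384_al.Order64
open Pool.Agent.H.MP_443384_al

theorem result : ∃ (M : Type) (_ : Group M), Nat.card M = 64 ∧
    ∀ p : ℕ, p.Prime → p ∣ Nat.card M → ∀ H : Subgroup M, (∀ K : Subgroup M, P H ≤ P K) →
      p < H.normalCore.relIndex H := by
  have hc : Nat.card G = 64 := by rw [Nat.card_eq_fintype_card, card_G]
  refine ⟨G, inferInstance, hc, fun p hp hd H hH => not_le.1 fun h => ?_⟩
  obtain rfl : p = 2 := (Nat.prime_dvd_prime_iff_eq hp Nat.prime_two).1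
    (hp.dvd_of_dvd_pow (n := 6) (by rwa [hc] at hd))
  have := (pow_le_pow_left₀ (by norm_num) ((lower H h).trans (hH H0)) 16).trans upper
  norm_num at this

end Pool.Agent.Results.MP_443384_al.Order64
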